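import Pool.Agent.W780.BB.Stm
import Pool.Agent.W174.PG.Basic

/-!
# Itineraries are unique (part `S_Uniq` of `Pool.Agent.W780.BB.Stm`)
-/

set_option autoImplicit false

namespace Pool.Agent.W108.BB

open Complex Set Pool.Agent.W780.PG Pool.Agent.W780.BB

variable {n : ℕ}

lemma sf_cr (p : Fin (n + 3) → ℂ) (i j : Fin (n + 3)) (B A : ℂ) :
    sf p j (cr p i B A) = (1 - sf p i B / (sf p i B - sf p i A)) * sf p j B +
      sf p i B / (sf p i B - sf p i A) * sf p j A := by
  unfold cr sf
  rw [Pool.Agent.W174.PG.lft_line]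

lemma cr_lt (p : Fin (n + 3) → ℂ) (i j : Fin (n + 3)) (B A : ℂ)
    (hj : 0 < sf p j B) (hj' : sf p j A < 0) (h : 0 < sf p j (cr p i B A)) :
    sf p i B / (sf p i B - sf p i A) < sf p j B / (sf p j B - sf p j A) := by
  rw [sf_cr] at h
  have h1 : 0 < sf p j B - sf p j A := by linarith
  rw [lt_div_iff₀ h1]
  nlinarith

theorem uniq : S_Uniq := by
  intro n p hp w
  induction w with
  | nil =>
    intro w' B A h h'
    cases w' with
    | nil => rfl
    | cons j v =>
      exfalso
      have h1 : 0 < sf p j A := h j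
      exact absurd h'.2.1 (not_lt.2 h1.le)
  | cons i w ih =>
    intro w' B A h h'
    cases w' with
    | nil =>
      exfalso
      have h1 : 0 < sf p i A := h' i
      exact absurd h.2.1 (not_lt.2 h1.le)
    | cons j v =>
      by_cases hij : i = j
      · subst hij
        rw [ih v _ _ h.2.2.2 h'.2.2.2]
      · exfalso
        have h1 := cr_lt p i j B A h'.1 h'.2.1 (h.2.2.1 j (Ne.symm hij))
        have h2 := cr_lt p j i B A h.1 h.2.1 (h'.2.2.1 i hij)
        linarith

end Pool.Agent.W108.BB
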